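import Pool.Agent.Y16.AF.StmB
import Pool.Agent.Y141.AF.POS

/-!
# Passage to momentum space without background field (`af_pos0`)
-/

open Matrix
open scoped Matrix.Norms.Frobenius Topology
open Pool.Agent.Y16.AF Pool.Agent.Y141.AF

namespace Pool.Agent.Y344.AF

set_option linter.unusedSectionVars false

noncomputable section

variable {L : ℕ} [NeZero L]

/-- the weight of a plane -/
def wt (lam : ℝ) (κ : Fin 3 ⊕ Fin 3) : ℂ := if κ = .inl 0 then (1 + lam : ℂ) else 1

theorem wt_conj (lam : ℝ) (κ : Fin 3 ⊕ Fin 3) : (starRingEnd ℂ) (wt lam κ) = wt lam κ := by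
  unfold wt
  split_ifs
  · rw [map_add, map_one, Complex.conj_ofReal]
  · exact map_one _

/-- the matrix in position space -/
def Gm (lam : ℝ) (w w' : Links L) : ℂ := ((Hm w w' + lam * H01 w w' : ℝ) : ℂ)

theorem Gm_sum (lam : ℝ) (w w' : Links L) :
    Gm lam w w' = ∑ p : Pq L, ∑ i, ∑ j, (inc p i w : ℂ) * inc p j w' * wt lam p.2.2 := by
  unfold Gm Hm H01
  rw [Finset.mul_sum, ← Finset.sum_add_distrib]
  push_cast
  refine Finset.sum_congr rfl fun p _ => ?_
  rw [Finset.mul_sum, ← Finset.sum_add_distrib]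
  refine Finset.sum_congr rfl fun i _ => ?_
  rw [Finset.mul_sum, ← Finset.sum_add_distrib]
  refine Finset.sum_congr rfl fun j _ => ?_
  unfold wt
  split_ifs
  · push_cast
    ring
  · push_cast
    ring

theorem Gm_eq (lam : ℝ) (x y : Sp L) (a b : AL L) :
    Gm lam (x, a) (y, b) = (1 / (L : ℂ) ^ 3) * ∑ k : Sp L, chi k (x - y) * hL0 lam (zk k) a b := by
  rw [Gm_sum]
  unfold hL0
  rw [Fintype.sum_prod_type, Finset.sum_comm, Fintype.sum_prod_type]
  have key : ∀ (t : Fin L) (κ : Fin 3 ⊕ Fin 3) (i j : Fin 4),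
      ∑ s : Sp L, (inc (s, t, κ) i (x, a) : ℂ) * inc (s, t, κ) j (y, b) * wt lam κ =
      1 / (L : ℂ) ^ 3 * ∑ k : Sp L, chi k (x - y) * (inl1 t κ i a * inl1 t κ j b * wt lam κ *
          ((starRingEnd ℂ) (lz (zk k) κ i) * lz (zk k) κ j)) := by
    intro t κ i j
    have h1 : ∀ k : Sp L, chi k (x - y) * (inl1 t κ i a * inl1 t κ j b * wt lam κ *
          ((starRingEnd ℂ) (lz (zk k) κ i) * lz (zk k) κ j)) =
        (inl1 t κ i a * inl1 t κ j b * wt lam κ) *
          chi k (x - y + (-(ls κ i) + ls κ j)) := by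
      intro k
      rw [chi_add, chi_add, chi_neg, lz_eq, lz_eq]
      ring
    rw [Finset.sum_congr rfl fun k _ => h1 k, ← Finset.mul_sum]
    have h2 := delta (x - y + (-(ls κ i) + ls κ j))
    have h3 : ∀ s : Sp L, (inc (s, t, κ) i (x, a) : ℂ) * inc (s, t, κ) j (y, b) * wt lam κ =
        if s = x - ls κ i then (inl1 t κ i a * inl1 t κ j b * wt lam κ) *
            (if x - y + (-(ls κ i) + ls κ j) = 0 then 1 else 0) else 0 := by
      intro s
      rw [inc_eq, inc_eq]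
      by_cases h : s = x - ls κ i
      · rw [if_pos h, if_pos h]
        have : (s = y - ls κ j) ↔ (x - y + (-(ls κ i) + ls κ j) = 0) := by
          rw [h]
          constructor
          · intro h5
            have : x - y + (-(ls κ i) + ls κ j) = (x - ls κ i) - (y - ls κ j) := by abel
            rw [this, h5, sub_self]
          · intro h5
            have h6 : x - y + (-(ls κ i) + ls κ j) = (x - ls κ i) - (y - ls κ j) := by abel
            rw [h6] at h5
            exact sub_eq_zero.1 h5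
        by_cases h7 : s = y - ls κ j
        · rw [if_pos h7, if_pos (this.1 h7), mul_one]
        · rw [if_neg h7, if_neg (fun h8 => h7 (this.2 h8))]
          ring
      · rw [if_neg h, if_neg h]
        ring
    rw [Finset.sum_congr rfl fun s _ => h3 s, Finset.sum_ite_eq' Finset.univ,
      if_pos (Finset.mem_univ _), h2]
    ring
  have h4 : ∀ (t : Fin L) (κ : Fin 3 ⊕ Fin 3), ∑ s : Sp L, ∑ i, ∑ j,
      (inc (s, t, κ) i (x, a) : ℂ) * inc (s, t, κ) j (y, b) * wt lam κ =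
        ∑ i, ∑ j, 1 / (L : ℂ) ^ 3 * ∑ k : Sp L,
          chi k (x - y) * (inl1 t κ i a * inl1 t κ j b * wt lam κ *
          ((starRingEnd ℂ) (lz (zk k) κ i) * lz (zk k) κ j)) := by
    intro t κ
    rw [Finset.sum_comm]
    refine Finset.sum_congr rfl fun i _ => ?_
    rw [Finset.sum_comm]
    exact Finset.sum_congr rfl fun j _ => key t κ i j
  rw [Finset.sum_congr rfl fun t _ => Finset.sum_congr rfl fun κ _ => h4 t κ]
  simp only [Finset.mul_sum]
  symm
  rw [Finset.sum_comm]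
  refine Finset.sum_congr rfl fun t _ => ?_
  rw [Finset.sum_comm]
  refine Finset.sum_congr rfl fun κ _ => ?_
  rw [Finset.sum_comm]
  refine Finset.sum_congr rfl fun i _ => ?_
  rw [Finset.sum_comm]
  rfl

theorem hL0_conj (lam : ℝ) (z : Fin 3 → ℂ) (a b : AL L) :
    (starRingEnd ℂ) (hL0 lam z a b) = hL0 lam z b a := by
  have h0 : ∀ a b : AL L, hL0 lam z a b = ∑ t : Fin L, ∑ κ, ∑ i, ∑ j,
      inl1 t κ i a * inl1 t κ j b * wt lam κ * ((starRingEnd ℂ) (lz z κ i) * lz z κ j) :=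
    fun a b => rfl
  rw [h0, h0]
  simp only [map_sum]
  refine Finset.sum_congr rfl fun t _ => Finset.sum_congr rfl fun κ _ => ?_
  rw [Finset.sum_comm]
  refine Finset.sum_congr rfl fun i _ => Finset.sum_congr rfl fun j _ => ?_
  have h : ∀ (t : Fin L) κ i (a : AL L), (starRingEnd ℂ) (inl1 t κ i a) = inl1 t κ i a := by
    intro t κ i a
    unfold inl1
    split_ifs
    · exact Complex.conj_ofReal _
    · exact map_zero _
  rw [map_mul, map_mul, map_mul, map_mul, h, h, wt_conj, Complex.conj_conj]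
  ring

theorem lvv_S0 (n : ℕ) (j : Fin 3) : lvv 0 (vS L n j) = 0 := by
  rw [lvv_S]
  split_ifs
  · unfold EE
    simp
  · rfl

/-- The plaquette sums of the zero mode vanish. -/
theorem leg_sum (t : Fin L) (κ : Fin 3 ⊕ Fin 3) :
    ∑ j, ((sg κ j : ℝ) : ℂ) * lvv 0 (lv t κ j) = 0 := by
  rw [Fin.sum_univ_four]
  rcases κ with j | m
  · show ((sg (.inl j) 0 : ℝ) : ℂ) * lvv 0 (vT L t) + ((sg (.inl j) 1 : ℝ) : ℂ) * lvv 0 (vS L t j) +
      ((sg (.inl j) 2 : ℝ) : ℂ) * lvv 0 (vT L t) +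
        ((sg (.inl j) 3 : ℝ) : ℂ) * lvv 0 (vS L (t + 1) j) = 0
    rw [lvv_S0, lvv_S0]
    have h3 : sg (.inl j) 0 = -1 := rfl
    have h4 : sg (.inl j) 2 = 1 := rfl
    rw [h3, h4]
    push_cast
    ring
  · show ((sg (.inr m) 0 : ℝ) : ℂ) * lvv 0 (vS L t (pi2 m)) +
      ((sg (.inr m) 1 : ℝ) : ℂ) * lvv 0 (vS L t (pi1 m)) +
      ((sg (.inr m) 2 : ℝ) : ℂ) * lvv 0 (vS L t (pi2 m)) +
        ((sg (.inr m) 3 : ℝ) : ℂ) * lvv 0 (vS L t (pi1 m)) = 0
    rw [lvv_S0, lvv_S0]
    ring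

theorem ker0 (lam : ℝ) (a : AL L) : ∑ b, hL0 lam 1 a b * zet 0 b = 0 := by
  have h0 : ∀ b : AL L, hL0 lam 1 a b = ∑ t : Fin L, ∑ κ, ∑ i, ∑ j,
      inl1 t κ i a * inl1 t κ j b * wt lam κ *
        ((starRingEnd ℂ) (lz 1 κ i) * lz 1 κ j) := fun b => rfl
  have h1 : ∑ b, hL0 lam 1 a b * zet 0 b = ∑ t : Fin L, ∑ κ, ∑ i, inl1 t κ i a * wt lam κ *
      ∑ j, ((sg κ j : ℝ) : ℂ) * lvv 0 (lv t κ j) := by
    simp only [h0, Finset.sum_mul]
    rw [Finset.sum_comm]
    refine Finset.sum_congr rfl fun t _ => ?_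
    rw [Finset.sum_comm]
    refine Finset.sum_congr rfl fun κ _ => ?_
    rw [Finset.sum_comm]
    refine Finset.sum_congr rfl fun i _ => ?_
    rw [Finset.sum_comm, Finset.mul_sum]
    refine Finset.sum_congr rfl fun j _ => ?_
    rw [← lvv_sum, Finset.mul_sum]
    refine Finset.sum_congr rfl fun b _ => ?_
    rw [lz_one, lz_one, map_one]
    ring
  rw [h1]
  refine Finset.sum_eq_zero fun t _ => Finset.sum_eq_zero fun κ _ => Finset.sum_eq_zero fun i _ => ?_
  rw [leg_sum, mul_zero]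

theorem kerJ0 (lam : ℝ) (a : AL L) : ∑ b, hL0 lam 1 a (jJ L b) * zet 0 (jJ L b) = 0 := by
  rw [← ker0 lam a, Fintype.sum_sum_type, Fintype.sum_option]
  congr 1
  symm
  refine Finset.sum_eq_single (⟨L - 1, Nat.sub_lt (Nat.pos_of_ne_zero (NeZero.ne L)) one_pos⟩ : Fin L)
    (fun t _ ht => ?_) (fun h => absurd (Finset.mem_univ _) h)
  have : zet 0 (.inl t : AL L) = 0 := by
    show (if (t : ℕ) + 1 = L then (1 : ℂ) else 0) = 0
    rw [if_neg]
    intro h
    exact ht (Fin.ext (by show (t : ℕ) = L - 1; omega))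
  rw [this, mul_zero]

theorem Gm_conj (lam : ℝ) (w w' : Links L) : (starRingEnd ℂ) (Gm lam w w') = Gm lam w' w := by
  rw [Gm_sum, Gm_sum]
  simp only [map_sum]
  refine Finset.sum_congr rfl fun p _ => ?_
  rw [Finset.sum_comm]
  refine Finset.sum_congr rfl fun i _ => Finset.sum_congr rfl fun j _ => ?_
  rw [map_mul, map_mul, wt_conj, Complex.conj_ofReal, Complex.conj_ofReal]
  ring

theorem kerH0 (lam : ℝ) (x : Sp L) (a : AL L) :
    ∑ q : Sp L × Option (Fin (L - 1) × Fin 3),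
      Gm lam (x, a) (q.1, jJ L q.2) * zet 0 (jJ L q.2) = 0 := by
  rw [Fintype.sum_prod_type, Finset.sum_comm]
  have h1 : ∀ b, ∑ y : Sp L, Gm lam (x, a) (y, jJ L b) * zet 0 (jJ L b) =
      hL0 lam 1 a (jJ L b) * zet 0 (jJ L b) := by
    intro b
    rw [← Finset.sum_mul]
    congr 1
    simp only [Gm_eq]
    rw [← Finset.mul_sum, Finset.sum_comm]
    have h2 : ∀ k : Sp L, ∑ y : Sp L, chi k (x - y) * hL0 lam (zk k) a (jJ L b) =
        if k = 0 then (L : ℂ) ^ 3 * hL0 lam (zk k) a (jJ L b) else 0 := by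
      intro k
      rw [← Finset.sum_mul]
      have h3 : ∑ y : Sp L, chi k (x - y) = ∑ y, chi y k := by
        rw [← Equiv.sum_comp (Equiv.subLeft x) (fun y => chi y k)]
        exact Finset.sum_congr rfl fun y _ => chi_comm _ _
      rw [h3, chi_sum, ite_mul, zero_mul]
    rw [Finset.sum_congr rfl fun k _ => h2 k, Finset.sum_ite_eq', if_pos (Finset.mem_univ _),
      zk_zero, ← mul_assoc, one_div, inv_mul_cancel₀ hL3, one_mul]
  rw [Finset.sum_congr rfl fun b _ => h1 b]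
  exact kerJ0 lam a

theorem det_cast (lam : ℝ) :
    ((det (rs (Hm (L := L)) + lam • rs (H01 (L := L))) : ℝ) : ℂ) =
      det (rs (Gm (L := L) lam)) := by
  have h := RingHom.map_det Complex.ofRealHom (rs (Hm (L := L)) + lam • rs (H01 (L := L)))
  have h1 : Complex.ofRealHom (det (rs (Hm (L := L)) + lam • rs (H01 (L := L)))) =
    ((det (rs (Hm (L := L)) + lam • rs (H01 (L := L))) : ℝ) : ℂ) := rfl
  rw [← h1, h]
  congr 1

theorem af_pos0 : S_FP → S_FOUR → S_POS0 := by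
  intro hFP hFO L _ hL lam
  rw [det_cast]
  -- position space
  have A := FP' hFP (P := PP L) (0, none)
    (Matrix.of fun p q : PP L => Gm lam (p.1, jJ L p.2) (q.1, jJ L q.2))
    (fun p => zet 0 (jJ L p.2)) (fun p => kerH0 lam p.1 (jJ L p.2)) (fun p q => Gm_conj lam _ _)
  have A1 : det ((Matrix.of fun p q : PP L => Gm lam (p.1, jJ L p.2) (q.1, jJ L q.2)).submatrix
      (Subtype.val : {p : PP L // p ≠ (0, none)} → PP L) Subtype.val) =
      det (rs (Gm (L := L) lam)) := by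
    rw [← det_submatrix_equiv_self (Equiv.ofBijective _ phi_bij) (rs (Gm (L := L) lam))]
    rfl
  have A2 : ∑ p : PP L, (starRingEnd ℂ) (zet 0 (jJ L p.2)) * zet 0 (jJ L p.2) =
      (L : ℂ) ^ 3 * NN L 0 := by
    rw [Fintype.sum_prod_type]
    show ∑ _x : Sp L, NN L 0 = _
    rw [Finset.sum_const, Finset.card_univ, Fintype.card_pi_const, ZMod.card, nsmul_eq_mul]
    push_cast
    rfl
  rw [A1, A2] at A
  simp only [zet_none, map_one, mul_one] at A
  -- momentum space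
  have B := hFO L (fun k : Sp L => (Matrix.of (hL0 (L := L) lam (zk k))).submatrix (jJ L) (jJ L) +
    Matrix.of fun a b => if k = 0 then (L : ℂ) ^ 3 *
      (zet 0 (jJ L a) * (starRingEnd ℂ) (zet 0 (jJ L b))) else 0)
  have B1 : (Matrix.of fun (p q : PP L) => (1 / (L : ℂ) ^ 3) *
      ∑ k : Sp L, (∏ j, zk k j ^ (p.1 j - q.1 j).val) *
        ((Matrix.of (hL0 (L := L) lam (zk k))).submatrix (jJ L) (jJ L) +
          Matrix.of fun a b => if k = 0 then (L : ℂ) ^ 3 *
            (zet 0 (jJ L a) * (starRingEnd ℂ) (zet 0 (jJ L b))) else 0) p.2 q.2) =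
      (Matrix.of fun p q : PP L => Gm lam (p.1, jJ L p.2) (q.1, jJ L q.2)) +
        Matrix.of fun p q : PP L => zet 0 (jJ L p.2) * (starRingEnd ℂ) (zet 0 (jJ L q.2)) := by
    ext p q
    rw [Matrix.add_apply, Matrix.of_apply, Matrix.of_apply, Matrix.of_apply, Gm_eq]
    have h1 : ∀ k : Sp L, (∏ j, zk k j ^ (p.1 j - q.1 j).val) *
        ((Matrix.of (hL0 (L := L) lam (zk k))).submatrix (jJ L) (jJ L) +
          Matrix.of fun a b => if k = 0 then (L : ℂ) ^ 3 *
            (zet 0 (jJ L a) * (starRingEnd ℂ) (zet 0 (jJ L b))) else 0) p.2 q.2 =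
        chi k (p.1 - q.1) * hL0 lam (zk k) (jJ L p.2) (jJ L q.2) +
        (if k = 0 then (L : ℂ) ^ 3 *
            (zet 0 (jJ L p.2) * (starRingEnd ℂ) (zet 0 (jJ L q.2))) else 0) := by
      intro k
      have h2 : (∏ j, zk k j ^ (p.1 j - q.1 j).val) = chi k (p.1 - q.1) := chi_eq k (p.1 - q.1)
      rw [h2, Matrix.add_apply, Matrix.of_apply, Matrix.submatrix_apply, Matrix.of_apply, mul_add]
      congr 1
      split_ifs with h3
      · rw [h3, chi_comm, chi_zero, one_mul]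
      · rw [mul_zero]
    rw [Finset.sum_congr rfl fun k _ => h1 k, Finset.sum_add_distrib, mul_add, Finset.sum_ite_eq',
      if_pos (Finset.mem_univ _), ← mul_assoc (1 / (L : ℂ) ^ 3) ((L : ℂ) ^ 3), one_div,
      inv_mul_cancel₀ hL3, one_mul]
  rw [B1, A] at B
  -- the modes of momentum zero
  have C := FP' hFP (P := Option (Fin (L - 1) × Fin 3)) none
    ((Matrix.of (hL0 (L := L) lam 1)).submatrix (jJ L) (jJ L))
    (fun b => ((Real.sqrt ((L : ℝ) ^ 3) : ℝ) : ℂ) * zet 0 (jJ L b)) ?_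
    (fun p q => hL0_conj lam _ _ _)
  · have hs : ((Real.sqrt ((L : ℝ) ^ 3) : ℝ) : ℂ) * ((Real.sqrt ((L : ℝ) ^ 3) : ℝ) : ℂ) =
        (L : ℂ) ^ 3 := by
      rw [← Complex.ofReal_mul, Real.mul_self_sqrt (by positivity)]
      push_cast
      rfl
    have hc : (starRingEnd ℂ) ((Real.sqrt ((L : ℝ) ^ 3) : ℝ) : ℂ) =
      ((Real.sqrt ((L : ℝ) ^ 3) : ℝ) : ℂ) := Complex.conj_ofReal _
    simp only [zet_none, map_mul, hc, mul_one, hs] at C
    have C1 : ∑ b : Option (Fin (L - 1) × Fin 3), ((Real.sqrt ((L : ℝ) ^ 3) : ℝ) : ℂ) *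
        (starRingEnd ℂ) (zet 0 (jJ L b)) * (((Real.sqrt ((L : ℝ) ^ 3) : ℝ) : ℂ) *
          zet 0 (jJ L b)) = (L : ℂ) ^ 3 * NN L 0 := by
      unfold NN
      rw [Finset.mul_sum]
      refine Finset.sum_congr rfl fun b _ => ?_
      rw [← hs]
      ring
    have C2 : det (((Matrix.of (hL0 (L := L) lam 1)).submatrix (jJ L) (jJ L)).submatrix
        (Subtype.val : {p : Option (Fin (L - 1) × Fin 3) // p ≠ none} → _) Subtype.val) =
        det ((Matrix.of (hL0 (L := L) lam 1)).submatrix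
        (Sum.inr : Fin (L - 1) × Fin 3 → AL L) (Sum.inr : Fin (L - 1) × Fin 3 → AL L)) := by
      have hb : Function.Bijective (fun q : Fin (L - 1) × Fin 3 =>
          (⟨some q, Option.some_ne_none q⟩ : {p : Option (Fin (L - 1) × Fin 3) // p ≠ none})) := by
        constructor
        · intro q q' h
          exact Option.some_injective _ (congrArg Subtype.val h)
        · rintro ⟨p, hp⟩
          rcases p with _ | q
          · exact absurd rfl hp
          · exact ⟨q, rfl⟩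
      rw [← det_submatrix_equiv_self (Equiv.ofBijective _ hb)]
      rfl
    have C3 : (Matrix.of fun p q : Option (Fin (L - 1) × Fin 3) =>
        ((Real.sqrt ((L : ℝ) ^ 3) : ℝ) : ℂ) * zet 0 (jJ L p) *
          (((Real.sqrt ((L : ℝ) ^ 3) : ℝ) : ℂ) * (starRingEnd ℂ) (zet 0 (jJ L q)))) =
        Matrix.of fun a b => (L : ℂ) ^ 3 *
          (zet 0 (jJ L a) * (starRingEnd ℂ) (zet 0 (jJ L b))) := by
      ext a b
      rw [Matrix.of_apply, Matrix.of_apply, ← hs]
      ring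
    rw [C1, C2, C3] at C
    -- assembly
    have D : ∏ k : Sp L, det ((Matrix.of (hL0 (L := L) lam (zk k))).submatrix (jJ L) (jJ L) +
        Matrix.of fun a b => if k = 0 then (L : ℂ) ^ 3 *
          (zet 0 (jJ L a) * (starRingEnd ℂ) (zet 0 (jJ L b))) else 0) =
        det ((Matrix.of (hL0 (L := L) lam 1)).submatrix (jJ L) (jJ L) +
          Matrix.of fun a b => (L : ℂ) ^ 3 *
            (zet 0 (jJ L a) * (starRingEnd ℂ) (zet 0 (jJ L b)))) *
        ∏ k ∈ nz L,
          det ((Matrix.of (hL0 (L := L) lam (zk k))).submatrix (jJ L) (jJ L)) := by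
      rw [← Finset.mul_prod_erase Finset.univ _ (Finset.mem_univ (0 : Sp L))]
      unfold nz
      rw [Finset.filter_ne']
      congr 1
      · rw [zk_zero]
        simp only [if_true]
      · refine Finset.prod_congr rfl fun k hk => ?_
        have hk0 : k ≠ 0 := (Finset.mem_erase.1 hk).1
        congr 1
        ext a b
        rw [Matrix.add_apply, Matrix.of_apply, if_neg hk0, add_zero]
    rw [D] at B
    have hN : (L : ℂ) ^ 3 * NN L 0 ≠ 0 := mul_ne_zero hL3 (NN_ne 0)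
    have hN2 : ((L : ℂ) ^ 3 * NN L 0) ^ 2 * (L : ℂ) ^ 3 ≠ 0 :=
      mul_ne_zero (pow_ne_zero _ hN) hL3
    apply mul_left_cancel₀ hN2
    set X := det (rs (Gm (L := L) lam))
    set Y := det ((Matrix.of (hL0 (L := L) lam 1)).submatrix (jJ L) (jJ L) +
          Matrix.of fun a b => (L : ℂ) ^ 3 *
            (zet 0 (jJ L a) * (starRingEnd ℂ) (zet 0 (jJ L b))))
    set Q := ∏ k ∈ nz L,
          det ((Matrix.of (hL0 (L := L) lam (zk k))).submatrix (jJ L) (jJ L))
    set V := det ((Matrix.of (hL0 (L := L) lam 1)).submatrix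
        (Sum.inr : Fin (L - 1) × Fin 3 → AL L) (Sum.inr : Fin (L - 1) × Fin 3 → AL L))
    have h5 : (1 / (L : ℂ) ^ 3) * (L : ℂ) ^ 3 = 1 := by
      rw [one_div, inv_mul_cancel₀ hL3]
    calc ((L : ℂ) ^ 3 * NN L 0) ^ 2 * (L : ℂ) ^ 3 * X
        = (((L : ℂ) ^ 3 * NN L 0) ^ 2 * X) * (L : ℂ) ^ 3 := by ring
      _ = (Y * (L : ℂ) ^ 3) * Q := by rw [B]; ring
      _ = (((L : ℂ) ^ 3 * NN L 0) ^ 2 * V) * Q := by rw [C]
      _ = (((L : ℂ) ^ 3 * NN L 0) ^ 2 * V) * Q * (1 / (L : ℂ) ^ 3 * (L : ℂ) ^ 3) := by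
          rw [h5, mul_one]
      _ = _ := by ring
  · intro p
    have h6 := kerJ0 lam (jJ L p)
    have h7 : ∀ q, (Matrix.of (hL0 (L := L) lam 1)).submatrix (jJ L) (jJ L) p q *
        (((Real.sqrt ((L : ℝ) ^ 3) : ℝ) : ℂ) * zet 0 (jJ L q)) =
        ((Real.sqrt ((L : ℝ) ^ 3) : ℝ) : ℂ) *
          (hL0 lam 1 (jJ L p) (jJ L q) * zet 0 (jJ L q)) := by
      intro q
      rw [Matrix.submatrix_apply, Matrix.of_apply]
      ring
    rw [Finset.sum_congr rfl fun q _ => h7 q, ← Finset.mul_sum, h6, mul_zero]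

end

end Pool.Agent.Y344.AF
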